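import Mathlib

/-!
# The pointwise Barbashin-type condition does not imply uniform exponential stability

On the Banach space `ℓ¹` (real or complex) take `A n x = x n • e (n+1)`.  Then
`∑_{k ≤ m} ‖A_m^k x‖ ≤ 2 ‖x‖` for all `m` and `x`, although `‖A_m^k‖ = 1` for all `k ≤ m`.
-/

set_option autoImplicit false

open scoped ENNReal

namespace Pool.Agent.Results.MP_a62e4d_an.PointwiseBarbashinFails

/-- The evolution operators of the system `x (n+1) = A n (x n)`: `evo A m k` is the product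
`A (m-1) ∘ ⋯ ∘ A k` when `k < m`, and the identity when `m ≤ k` (in particular when `m = k`);
it carries the state at time `k` to the state at time `m`. -/
noncomputable def evo {𝕜 X : Type*} [RCLike 𝕜] [NormedAddCommGroup X] [NormedSpace 𝕜 X]
    (A : ℕ → X →L[𝕜] X) : ℕ → ℕ → (X →L[𝕜] X)
  | 0, _ => ContinuousLinearMap.id 𝕜 X
  | m + 1, k => if m + 1 ≤ k then ContinuousLinearMap.id 𝕜 X else (A m).comp (evo A m k)

/-- Uniform exponential stability of the system `x (n+1) = A n (x n)`. -/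
def UES {𝕜 X : Type*} [RCLike 𝕜] [NormedAddCommGroup X] [NormedSpace 𝕜 X]
    (A : ℕ → X →L[𝕜] X) : Prop :=
  ∃ N : ℝ, 1 ≤ N ∧ ∃ ν : ℝ, 0 < ν ∧ ∀ m k : ℕ, k ≤ m → ∀ x : X,
    ‖evo A m k x‖ ≤ N * Real.exp (-ν * ((m : ℝ) - k)) * ‖x‖

/-- The pointwise Barbashin-type condition (iii) with constant `B`:
`∑_{k=0}^m ‖A_m^k x‖ ≤ B ‖x‖` for all `m` and `x`. -/
def PointwiseBarbashin {𝕜 X : Type*} [RCLike 𝕜] [NormedAddCommGroup X] [NormedSpace 𝕜 X]
    (A : ℕ → X →L[𝕜] X) (B : ℝ) : Prop :=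
  ∀ (m : ℕ) (x : X), ∑ k ∈ Finset.range (m + 1), ‖evo A m k x‖ ≤ B * ‖x‖

/-- `BarbashinFailsOn 𝕜 X`: on the Banach space `X` there is a system `(A n)` which satisfies the
pointwise Barbashin-type condition (iii) with `B = 2`, which is not uniformly exponentially
stable, and all of whose evolution operators `A_m^k`, `k ≤ m`, have norm exactly one. -/
def BarbashinFailsOn (𝕜 X : Type*) [RCLike 𝕜] [NormedAddCommGroup X] [NormedSpace 𝕜 X]
    [CompleteSpace X] : Prop :=
  ∃ A : ℕ → X →L[𝕜] X,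
    PointwiseBarbashin A 2 ∧ ¬ UES A ∧ ∀ m k : ℕ, k ≤ m → ‖evo A m k‖ = 1

section basic

variable {𝕜 X : Type*} [RCLike 𝕜] [NormedAddCommGroup X] [NormedSpace 𝕜 X]

lemma evo_self (A : ℕ → X →L[𝕜] X) (m : ℕ) : evo A m m = ContinuousLinearMap.id 𝕜 X := by
  cases m with
  | zero => simp [evo]
  | succ m => simp [evo]

lemma evo_succ (A : ℕ → X →L[𝕜] X) (m k : ℕ) (h : k ≤ m) :
    evo A (m + 1) k = (A m).comp (evo A m k) := by
  have : ¬ (m + 1 ≤ k) := by omega
  simp [evo, this]

end basic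

section ell1

variable (𝕜 : Type*) [RCLike 𝕜]

/-- The sequence space `ℓ¹` over `𝕜`. -/
abbrev L1 : Type _ := lp (fun _ : ℕ => 𝕜) 1

/-- The `n`-th coordinate functional on `ℓ¹`. -/
noncomputable def coord (n : ℕ) : L1 𝕜 →L[𝕜] 𝕜 :=
  LinearMap.mkContinuous
    { toFun := fun x => x n
      map_add' := fun x y => by simp
      map_smul' := fun c x => by simp } 1
    (fun x => by
      rw [one_mul]
      exact lp.norm_apply_le_norm one_ne_zero x n)

@[simp] lemma coord_apply (n : ℕ) (x : L1 𝕜) : coord 𝕜 n x = x n := rfl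

/-- The `n`-th unit vector of `ℓ¹`. -/
noncomputable def unitVec (n : ℕ) : L1 𝕜 := lp.single 1 n (1 : 𝕜)

lemma norm_unitVec (n : ℕ) : ‖unitVec 𝕜 n‖ = 1 := by
  unfold unitVec
  rw [lp.norm_single (by simp)]
  simp

lemma unitVec_apply_self (n : ℕ) : unitVec 𝕜 n n = 1 := by
  simp [unitVec]

/-- The system: `A n x = x n • e (n+1)`. -/
noncomputable def sys (n : ℕ) : L1 𝕜 →L[𝕜] L1 𝕜 :=
  (coord 𝕜 n).smulRight (unitVec 𝕜 (n + 1))

@[simp] lemma sys_apply (n : ℕ) (x : L1 𝕜) : sys 𝕜 n x = x n • unitVec 𝕜 (n + 1) := by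
  simp [sys]

lemma evo_sys (m k : ℕ) (h : k < m) (x : L1 𝕜) :
    evo (sys 𝕜) m k x = x k • unitVec 𝕜 m := by
  induction m with
  | zero => omega
  | succ m ih =>
    rw [evo_succ _ _ _ (by omega)]
    rcases Nat.lt_succ_iff_lt_or_eq.mp h with h' | h'
    · rw [ContinuousLinearMap.comp_apply, ih h', sys_apply]
      simp [unitVec_apply_self]
    · subst h'
      rw [evo_self]
      simp

lemma sum_norm_le (x : L1 𝕜) (m : ℕ) : ∑ k ∈ Finset.range m, ‖x k‖ ≤ ‖x‖ := by
  have h := lp.sum_rpow_le_norm_rpow (p := 1) (by simp) x (Finset.range m)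
  simpa using h

end ell1

/-- **Disproof of the conjecture.**  Over `𝕜 = ℝ` or `ℂ`, on the Banach space `ℓ¹` there is a
system `(A n)` which satisfies the pointwise Barbashin-type condition (iii) with `B = 2`, but is
not uniformly exponentially stable; indeed all its evolution operators `A_m^k`, `k ≤ m`, have
norm exactly one. -/
theorem result (𝕜 : Type) [RCLike 𝕜] : BarbashinFailsOn 𝕜 (lp (fun _ : ℕ => 𝕜) 1) := by
  have hnorm : ∀ m k : ℕ, k ≤ m → ‖evo (sys 𝕜) m k‖ = 1 := by
    intro m k hk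
    apply le_antisymm
    · refine ContinuousLinearMap.opNorm_le_bound _ zero_le_one (fun x => ?_)
      rcases hk.lt_or_eq with h | h
      · rw [evo_sys 𝕜 m k h x, norm_smul, norm_unitVec, mul_one, one_mul]
        exact lp.norm_apply_le_norm one_ne_zero x k
      · subst h
        rw [evo_self]
        simp
    · rcases hk.lt_or_eq with h | h
      · have h1 := (evo (sys 𝕜) m k).le_opNorm (unitVec 𝕜 k)
        rw [evo_sys 𝕜 m k h, unitVec_apply_self, one_smul, norm_unitVec, norm_unitVec,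
          mul_one] at h1
        exact h1
      · subst h
        have h1 := (evo (sys 𝕜) k k).le_opNorm (unitVec 𝕜 k)
        have h2 : evo (sys 𝕜) k k (unitVec 𝕜 k) = unitVec 𝕜 k := by
          rw [evo_self]; rfl
        rw [h2, norm_unitVec, mul_one] at h1
        exact h1
  refine ⟨sys 𝕜, ?_, ?_, hnorm⟩
  · intro m x
    rw [Finset.sum_range_succ]
    have h1 : ∑ k ∈ Finset.range m, ‖evo (sys 𝕜) m k x‖ = ∑ k ∈ Finset.range m, ‖x k‖ := by
      refine Finset.sum_congr rfl (fun k hk => ?_)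
      rw [evo_sys 𝕜 m k (Finset.mem_range.mp hk) x, norm_smul, norm_unitVec, mul_one]
    have h2 : ‖evo (sys 𝕜) m m x‖ = ‖x‖ := by
      rw [evo_self]; rfl
    rw [h1, h2]
    have h3 := sum_norm_le 𝕜 x m
    linarith
  · rintro ⟨N, hN, ν, hν, h⟩
    have key : ∀ m : ℕ, 1 ≤ N * Real.exp (-ν * (m : ℝ)) := by
      intro m
      have h1 : ‖evo (sys 𝕜) m 0‖ ≤ N * Real.exp (-ν * (m : ℝ)) := by
        refine ContinuousLinearMap.opNorm_le_bound _ (by positivity) (fun x => ?_)
        have := h m 0 (Nat.zero_le m) x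
        simpa using this
      rwa [hnorm m 0 (Nat.zero_le m)] at h1
    have hlim : Filter.Tendsto (fun m : ℕ => N * Real.exp (-ν * (m : ℝ))) Filter.atTop
        (nhds (N * 0)) := by
      refine Filter.Tendsto.const_mul N ?_
      have h3 : Filter.Tendsto (fun m : ℕ => -ν * (m : ℝ)) Filter.atTop Filter.atBot :=
        (tendsto_natCast_atTop_atTop).const_mul_atTop_of_neg (by linarith)
      exact Real.tendsto_exp_atBot.comp h3
    rw [mul_zero] at hlim
    have := ge_of_tendsto' hlim key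
    linarith

end Pool.Agent.Results.MP_a62e4d_an.PointwiseBarbashinFails
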